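import Pool.Agent.Split938.Split

set_option autoImplicit false
open Metric Set Filter Topology

namespace Pool.Agent.Results.MP_1707ab_an.SplitOne

/-- The class `A^n(T)`: `f` is holomorphic off `T` and each of `f, f', ..., f^(n)` extends
continuously from `W = Tᶜ` to `W⁻ = Tᶜ ∪ ∂T`. -/
def A (T : Set ℂ) (n : ℕ) : Set (ℂ → ℂ) :=
  {f | DifferentiableOn ℂ f Tᶜ ∧
    ∀ k ≤ n, ∃ g : ℂ → ℂ, ContinuousOn g (Tᶜ ∪ frontier T) ∧ EqOn g (iteratedDeriv k f) Tᶜ}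

theorem mem_of_pieces {T : Set ℂ} {f g : ℂ → ℂ} (hf : Continuous f)
    (hg : Continuous g) (hd : ∀ z ∉ T, HasDerivAt f (g z) z) : f ∈ A T 1 := by
  refine ⟨fun z hz => (hd z hz).differentiableAt.differentiableWithinAt, ?_⟩
  intro k hk
  interval_cases k
  · exact ⟨f, hf.continuousOn, fun z _ => by simp⟩
  · refine ⟨g, hg.continuousOn, fun z hz => ?_⟩
    rw [iteratedDeriv_one]
    exact (hd z hz).deriv.symm

/-- **The splitting `A^1(S) = A^1(S₁) + A^1(S₂)`** holds for every closed `S` and every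
admissible decomposition `S = S₁ ∪ S₂` (the case `n = 1` of the question, for all closed sets). -/
theorem result (S S₁ S₂ : Set ℂ) (hS : IsClosed S) (h₁ : IsClosed S₁) (h₂ : IsClosed S₂)
    (hU : S = S₁ ∪ S₂)
    (hint : ∀ z ∈ S, (∃ U ∈ 𝓝 z, U ∩ S ⊆ S₁) ∨ (∃ U ∈ 𝓝 z, U ∩ S ⊆ S₂)) (f : ℂ → ℂ) :
    f ∈ A S 1 ↔ ∃ f₁ ∈ A S₁ 1, ∃ f₂ ∈ A S₂ 1, EqOn f (f₁ + f₂) Sᶜ := by
  constructor
  · rintro ⟨hdiff, hk⟩
    obtain ⟨g₀, hg₀, he₀⟩ := hk 0 (by norm_num)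
    obtain ⟨g₁, hg₁, he₁⟩ := hk 1 le_rfl
    obtain ⟨f', hf', ef⟩ := Split938.extend hg₀
    obtain ⟨g', hg', eg⟩ := Split938.extend hg₁
    have hff : ∀ z ∉ S, f' z = f z := fun z hz => by
      rw [ef hz, he₀ hz, iteratedDeriv_zero]
    have hd : ∀ z ∉ S, HasDerivAt f' (g' z) z := by
      intro z hz
      have h1 : HasDerivAt f (deriv f z) z :=
        (hdiff.differentiableAt (hS.isOpen_compl.mem_nhds hz)).hasDerivAt
      have h2 : g' z = deriv f z := by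
        rw [eg hz, he₁ hz, iteratedDeriv_one]
      rw [h2]
      refine h1.congr_of_eventuallyEq ?_
      filter_upwards [hS.isOpen_compl.mem_nhds hz] with w hw
      exact hff w hw
    obtain ⟨f₁, g₁, f₂, g₂, c1, c2, c3, c4, d1, d2, e⟩ :=
      Split938.split hS h₁ h₂ hU hint hf' hg' hd
    refine ⟨f₁, mem_of_pieces c1 c2 d1, f₂, mem_of_pieces c3 c4 d2, fun z hz => ?_⟩
    rw [← hff z hz, e z]; rfl
  · rintro ⟨f₁, ⟨hd₁, hk₁⟩, f₂, ⟨hd₂, hk₂⟩, he⟩
    have s1 : S₁ ⊆ S := by rw [hU]; exact subset_union_left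
    have s2 : S₂ ⊆ S := by rw [hU]; exact subset_union_right
    have hd₁' : DifferentiableOn ℂ f₁ Sᶜ := hd₁.mono (compl_subset_compl.2 s1)
    have hd₂' : DifferentiableOn ℂ f₂ Sᶜ := hd₂.mono (compl_subset_compl.2 s2)
    refine ⟨(hd₁'.add hd₂').congr he, ?_⟩
    intro k hk
    obtain ⟨g₁, c1, e1⟩ := hk₁ k hk
    obtain ⟨g₂, c2, e2⟩ := hk₂ k hk
    refine ⟨fun z => g₁ z + g₂ z, (c1.mono (Split938.compl_frontier_mono s1)).add
      (c2.mono (Split938.compl_frontier_mono s2)), fun z hz => ?_⟩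
    have hn := hS.isOpen_compl.mem_nhds hz
    have a1 : ContDiffAt ℂ k f₁ z := (hd₁'.contDiffOn hS.isOpen_compl).contDiffAt hn
    have a2 : ContDiffAt ℂ k f₂ z := (hd₂'.contDiffOn hS.isOpen_compl).contDiffAt hn
    have e3 : iteratedDeriv k f z = iteratedDeriv k (f₁ + f₂) z := by
      apply Filter.EventuallyEq.iteratedDeriv_eq
      filter_upwards [hn] with w hw
      exact he hw
    rw [e3, iteratedDeriv_add a1 a2, ← e1 (fun h => hz (s1 h)), ← e2 (fun h => hz (s2 h))]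

end Pool.Agent.Results.MP_1707ab_an.SplitOne
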